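import Pool.Agent.Helper83.PT.St7

set_option autoImplicit false

/-! Project PT, module CN2: runs are simulated by the counting automaton. -/

namespace Pool.Agent.Helper83.PT.Helper41

open Pool.Agent.Helper73.DC
open Finset
open scoped Classical

lemma nps_castSucc {α : Type} {k : ℕ} (w : List α) (d : Fin k → Mv) (m : Mv) (P : Fin (k + 1) → ℕ)
    (p : Fin k → ℕ) (hP : ∀ i : Fin k, P i.castSucc = p i) (i : Fin k) :
    nps w (exn d m) P i.castSucc = nps w d p i := by
  unfold nps exn
  simp [hP]

lemma nps_last {α : Type} {k : ℕ} (w : List α) (d : Fin k → Mv) (m : Mv) (P : Fin (k + 1) → ℕ) :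
    nps w (exn d m) P (Fin.last k) = min (mvN m (P (Fin.last k))) (w.length + 1) := by
  unfold nps exn
  simp

lemma nps_le {α : Type} {k : ℕ} (w : List α) (d : Fin k → Mv) (P : Fin k → ℕ) (i : Fin k) :
    nps w d P i ≤ w.length + 1 := min_le_right _ _

lemma symAt_ne {α : Type} (w : List α) (i : ℕ) (h : 1 ≤ i) : symAt w i ≠ Sym.lm := by
  unfold symAt
  rw [if_neg (by omega)]
  cases w[i - 1]? <;> simp

lemma aux {α : Type} (C0 : ℕ) (M : MPDA α) (w : List α) (t : ℕ)
    (c c' : Bool × M.Q × (Fin M.k → ℕ) × List M.Γ) (h : TRun M w t c c') :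
    ∀ (j : Fin (C0 + 1)) (P : Fin (M.k + 1) → ℕ), (∀ i, P i ≤ w.length + 1) →
      (∀ i : Fin M.k, P i.castSucc = c.2.2.1 i) → t ≤ j + P (Fin.last M.k) →
      ∃ (j' : Fin (C0 + 1)) (P' : Fin (M.k + 1) → ℕ),
        TRun (cnt C0 M) w t (c.1, (c.2.1, c.1, j), P, c.2.2.2)
          (c'.1, (c'.2.1, c'.1, j'), P', c'.2.2.2) := by
  induction h with
  | refl c =>
    intro j P _ _ _
    exact ⟨j, P, TRun.refl _⟩
  | step t u q q' p d Z s γ c htr _ ih =>
    intro j P hb hP ht
    dsimp only at hP ht ih ⊢
    have hx : (fun i : Fin M.k => symAt w (P i.castSucc)) = fun i => symAt w (p i) := by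
      funext i
      rw [hP i]
    have hlast := hb (Fin.last M.k)
    by_cases htu : tu γ u = 0
    · have hm : (cnt C0 M).tr (q, u, j) Z (fun i => symAt w (P i)) =
          some ((q', fl γ u, j), exn d Mv.S, γ) := by
        show (match M.tr q Z (fun i => symAt w (P i.castSucc)) with
          | none => none
          | some (q', d, γ) =>
            if tu γ u = 0 then some ((q', fl γ u, j), exn d Mv.S, γ)
            else if j ≠ 0 then some ((q', fl γ u, j - 1), exn d Mv.S, γ)
            else match symAt w (P (Fin.last M.k)) with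
              | Sym.lm => none
              | _ => some ((q', fl γ u, j), exn d Mv.L, γ)) = _
        rw [hx, htr]
        simp [htu]
      obtain ⟨j', P', hr⟩ := ih j (nps w (exn d Mv.S) P) (fun i => nps_le _ _ _ i)
        (fun i => nps_castSucc w d Mv.S P p hP i) (by
          rw [nps_last]
          simp only [mvN]
          omega)
      exact ⟨j', P', TRun.step (M := cnt C0 M) t u (q, u, j) (q', fl γ u, j) P (exn d Mv.S) Z s γ _ hm hr⟩
    · have htu1 : tu γ u = 1 := by
        unfold tu at htu ⊢
        split_ifs at htu ⊢ with h1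
        · rfl
        · exact absurd rfl htu
      by_cases hj : j = 0
      · have hpos : 1 ≤ P (Fin.last M.k) := by
          have : (j : ℕ) = 0 := by rw [hj]; rfl
          omega
        have hs := symAt_ne w _ hpos
        have hm : (cnt C0 M).tr (q, u, j) Z (fun i => symAt w (P i)) =
            some ((q', fl γ u, j), exn d Mv.L, γ) := by
          show (match M.tr q Z (fun i => symAt w (P i.castSucc)) with
            | none => none
            | some (q', d, γ) =>
              if tu γ u = 0 then some ((q', fl γ u, j), exn d Mv.S, γ)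
              else if j ≠ 0 then some ((q', fl γ u, j - 1), exn d Mv.S, γ)
              else match symAt w (P (Fin.last M.k)) with
                | Sym.lm => none
                | _ => some ((q', fl γ u, j), exn d Mv.L, γ)) = _
          rw [hx, htr]
          simp only [htu, if_false, hj, ne_eq, not_true_eq_false]
        have h0 : (j : ℕ) = 0 := by rw [hj]; rfl
        obtain ⟨j', P', hr⟩ := ih j (nps w (exn d Mv.L) P) (fun i => nps_le _ _ _ i)
          (fun i => nps_castSucc w d Mv.L P p hP i) (by
            rw [nps_last]
            simp only [mvN]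
            omega)
        exact ⟨j', P', TRun.step (M := cnt C0 M) t u (q, u, j) (q', fl γ u, j) P (exn d Mv.L) Z s γ _ hm hr⟩
      · have hm : (cnt C0 M).tr (q, u, j) Z (fun i => symAt w (P i)) =
            some ((q', fl γ u, j - 1), exn d Mv.S, γ) := by
          show (match M.tr q Z (fun i => symAt w (P i.castSucc)) with
            | none => none
            | some (q', d, γ) =>
              if tu γ u = 0 then some ((q', fl γ u, j), exn d Mv.S, γ)
              else if j ≠ 0 then some ((q', fl γ u, j - 1), exn d Mv.S, γ)
              else match symAt w (P (Fin.last M.k)) with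
                | Sym.lm => none
                | _ => some ((q', fl γ u, j), exn d Mv.L, γ)) = _
          rw [hx, htr]
          simp [htu, hj]
        have h0 : ((j - 1 : Fin (C0 + 1)) : ℕ) = j - 1 := by
          rw [Fin.coe_sub_one, if_neg hj]
        have h1 : 1 ≤ (j : ℕ) := by
          rcases Nat.eq_zero_or_pos (j : ℕ) with h | h
          · exact absurd (Fin.ext h) hj
          · exact h
        obtain ⟨j', P', hr⟩ := ih (j - 1) (nps w (exn d Mv.S) P) (fun i => nps_le _ _ _ i)
          (fun i => nps_castSucc w d Mv.S P p hP i) (by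
            rw [nps_last, h0]
            simp only [mvN]
            omega)
        exact ⟨j', P', TRun.step (M := cnt C0 M) t u (q, u, j) (q', fl γ u, j - 1) P (exn d Mv.S) Z s γ _ hm hr⟩

theorem mCN2 : StCN2 := by
  intro α C0 M w t u q p s u' q' p' s' h j P hb hP ht
  exact aux C0 M w t _ _ h j P hb hP ht

end Pool.Agent.Helper83.PT.Helper41
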